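import Mathlib

/-! Elementary arithmetic of a second solution of `2^c + p^d = q^z` with `q = 4^i + p^(2j)`
(used for `MP_8ba198_nt`). -/

namespace Pool.Agent.H12.WF

/-- `(y + P)^z` is larger than `y^z + z P` for `z ≥ 2`, `y ≥ 2`, `P ≥ 1`. -/
lemma wf_bern {y P : ℕ} (hy : 2 ≤ y) (hP : 1 ≤ P) :
    ∀ z : ℕ, 2 ≤ z → y ^ z + z * P < (y + P) ^ z := by
  intro z hz
  induction z, hz using Nat.le_induction with
  | base => nlinarith
  | succ z hz ih =>
    have h1 : (y ^ z + z * P) * (y + P) ≤ (y + P) ^ z * (y + P) := Nat.mul_le_mul_right _ ih.le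
    have h2 : 1 ≤ y ^ z := Nat.one_le_pow _ _ (by omega)
    have h3 : y ^ (z + 1) + (z + 1) * P < (y ^ z + z * P) * (y + P) := by
      have e : (y ^ z + z * P) * (y + P) = y ^ (z + 1) + (y ^ z * P + z * P * y + z * P * P) := by
        ring
      rw [e]
      have h4 : 1 * P ≤ y ^ z * P := Nat.mul_le_mul_right _ h2
      have h5 : z * P * 2 ≤ z * P * y := Nat.mul_le_mul_left _ hy
      have h6 : 0 < z * P := by positivity
      nlinarith
    rw [pow_succ (y + P) z]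
    omega

/-- The exponent `c` is different from `2 i z`. -/
lemma wf_ne {p q i j c d z : ℕ} (hp : p.Prime) (hp2 : p % 2 = 1) (hi : 1 ≤ i) (_hj : 1 ≤ j)
    (hq : q = 4 ^ i + p ^ (2 * j)) (hd : d % 2 = 1) (hz : 1 ≤ z)
    (h : 2 ^ c + p ^ d = q ^ z) : c ≠ 2 * i * z := by
  intro hc
  have h4 : (2 : ℕ) ^ c = (4 ^ i) ^ z := by
    rw [hc, pow_mul, pow_mul]
    norm_num
  have hP0 : 0 < p ^ (2 * j) := Nat.pow_pos hp.pos
  have h4i : 4 ≤ 4 ^ i := by
    calc 4 = 4 ^ 1 := by norm_num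
      _ ≤ 4 ^ i := Nat.pow_le_pow_right (by norm_num) hi
  have hsub : q ^ z - (4 ^ i) ^ z = p ^ d := by
    rw [← h, h4]; omega
  have hpq : ¬ p ∣ q := by
    intro hdv
    rw [hq] at hdv
    have h1 : p ∣ p ^ (2 * j) := dvd_pow_self p (by omega)
    have h2 : p ∣ 4 ^ i := (Nat.dvd_add_left h1).1 hdv
    have h3 : p ∣ 4 := hp.dvd_of_dvd_pow h2
    have h5 : p ∣ 2 := by
      have : (4 : ℕ) = 2 ^ 2 := by norm_num
      rw [this] at h3
      exact hp.dvd_of_dvd_pow h3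
    have := (Nat.prime_dvd_prime_iff_eq hp Nat.prime_two).1 h5
    omega
  have hval := padicValNat.pow_sub_pow (p := p) (hp := ⟨hp⟩) (Nat.odd_iff.2 hp2)
    (x := q) (y := 4 ^ i) (by omega) (by
      rw [hq, Nat.add_sub_cancel_left]; exact dvd_pow_self p (by omega)) hpq (n := z) (by omega)
  have : Fact p.Prime := ⟨hp⟩
  have e1 : padicValNat p (q - 4 ^ i) = 2 * j := by
    rw [hq, Nat.add_sub_cancel_left, padicValNat.prime_pow]
  rw [hsub, padicValNat.prime_pow, e1] at hval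
  have hpv : p ^ padicValNat p z ∣ z := pow_padicValNat_dvd
  have hle : p ^ padicValNat p z ≤ z := Nat.le_of_dvd (by omega) hpv
  have hpd : p ^ d ≤ p ^ (2 * j) * z := by
    rw [hval, pow_add]
    exact Nat.mul_le_mul_left _ hle
  rcases Nat.lt_or_ge z 2 with hz2 | hz2
  · have hz1 : z = 1 := by omega
    subst hz1
    rw [padicValNat_one_right] at hval
    omega
  · have hb := wf_bern (y := 4 ^ i) (P := p ^ (2 * j)) (by omega) hP0 z hz2
    rw [← hq] at hb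
    have : p ^ d = q ^ z - (4 ^ i) ^ z := hsub.symm
    rw [Nat.mul_comm] at hpd
    omega

/-- `p^m` divides `2^n - 1`, `n = |2 i z - c|`, if `m ≤ d` and `m ≤ 2 j`. -/
lemma wf_dvd {p q i j c d z m : ℕ} (hp : p.Prime) (hp2 : p % 2 = 1)
    (hq : q = 4 ^ i + p ^ (2 * j)) (h : 2 ^ c + p ^ d = q ^ z) (hmd : m ≤ d) (hmj : m ≤ 2 * j) :
    p ^ m ∣ 2 ^ (2 * i * z - c) - 1 ∧ p ^ m ∣ 2 ^ (c - 2 * i * z) - 1 := by
  have h4 : (2 : ℕ) ^ (2 * i * z) = (4 ^ i) ^ z := by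
    rw [pow_mul, pow_mul]
    norm_num
  have h1 : q ≡ 4 ^ i [MOD p ^ m] := by
    rw [hq]
    have : p ^ (2 * j) ≡ 0 [MOD p ^ m] := (Nat.modEq_zero_iff_dvd).2 (pow_dvd_pow p hmj)
    simpa using Nat.ModEq.add_left (4 ^ i) this
  have h2 : q ^ z ≡ 2 ^ (2 * i * z) [MOD p ^ m] := by
    rw [h4]
    exact h1.pow z
  have h3 : q ^ z ≡ 2 ^ c [MOD p ^ m] := by
    rw [← h]
    have : p ^ d ≡ 0 [MOD p ^ m] := (Nat.modEq_zero_iff_dvd).2 (pow_dvd_pow p hmd)
    simpa using Nat.ModEq.add_left (2 ^ c) this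
  have h5 : 2 ^ c ≡ 2 ^ (2 * i * z) [MOD p ^ m] := h3.symm.trans h2
  have hcop : Nat.Coprime (p ^ m) 2 := by
    apply Nat.Coprime.pow_left
    rw [Nat.coprime_primes hp Nat.prime_two]
    rintro rfl
    omega
  have key : ∀ a b : ℕ, 2 ^ a ≡ 2 ^ b [MOD p ^ m] → p ^ m ∣ 2 ^ (a - b) - 1 := by
    intro a b hab
    rcases Nat.lt_or_ge b a with hlt | hge
    · have hsplit : 2 ^ a - 2 ^ b = 2 ^ b * (2 ^ (a - b) - 1) := by
        rw [Nat.mul_sub, mul_one, ← pow_add, Nat.add_sub_cancel' hlt.le]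
      have hdv : p ^ m ∣ 2 ^ a - 2 ^ b :=
        (Nat.modEq_iff_dvd' (Nat.pow_le_pow_right (by norm_num) hlt.le)).1 hab.symm
      rw [hsplit] at hdv
      exact (Nat.Coprime.dvd_mul_left (hcop.pow_right b)).1 hdv
    · rw [Nat.sub_eq_zero_of_le hge]
      simp
  exact ⟨key _ _ h5.symm, key _ _ h5⟩

/-- `z` and `d` are coprime. -/
lemma wf_cop {p q c d z : ℕ} (hp : p % 2 = 1) (hq : q % 2 = 1) (hp2 : 2 ≤ p)
    (hd : d % 2 = 1) (h : 2 ^ c + p ^ d = q ^ z) : z.Coprime d := by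
  obtain ⟨g, hg⟩ : ∃ g, g = Nat.gcd z d := ⟨_, rfl⟩
  obtain ⟨z', hz'⟩ : g ∣ z := hg ▸ Nat.gcd_dvd_left z d
  obtain ⟨d', hd'⟩ : g ∣ d := hg ▸ Nat.gcd_dvd_right z d
  show Nat.gcd z d = 1
  rw [← hg]
  by_contra hg1
  have hgodd : g % 2 = 1 := by
    by_contra h2
    have h3 : g % 2 = 0 := by omega
    have : d % 2 = 0 := by
      rw [hd', Nat.mul_mod, h3]
      simp
    omega
  have hg3 : 3 ≤ g := by omega
  have hd'1 : 1 ≤ d' := by
    rcases Nat.eq_zero_or_pos d' with h0 | h0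
    · rw [h0, mul_zero] at hd'
      omega
    · exact h0
  have hlt : p ^ d' < q ^ z' := by
    by_contra hcon
    push Not at hcon
    have h1 : (q ^ z') ^ g ≤ (p ^ d') ^ g := Nat.pow_le_pow_left hcon g
    rw [← pow_mul, ← pow_mul, mul_comm z' g, mul_comm d' g, ← hz', ← hd', ← h] at h1
    have : 0 < 2 ^ c := by positivity
    omega
  -- the cofactor
  have hfac : (∑ k ∈ Finset.range g, (q ^ z') ^ k * (p ^ d') ^ (g - 1 - k)) * (q ^ z' - p ^ d') =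
      2 ^ c := by
    have h1 := (Commute.all ((q : ℤ) ^ z') ((p : ℤ) ^ d')).geom_sum₂_mul g
    have h2 : ((q : ℤ) ^ z') ^ g - ((p : ℤ) ^ d') ^ g = 2 ^ c := by
      rw [← pow_mul, ← pow_mul, mul_comm z' g, mul_comm d' g, ← hz', ← hd']
      have : (2 : ℤ) ^ c + (p : ℤ) ^ d = (q : ℤ) ^ z := by exact_mod_cast h
      linarith
    rw [h2] at h1
    zify [hlt.le]
    exact h1
  have hodd : (∑ k ∈ Finset.range g, (q ^ z') ^ k * (p ^ d') ^ (g - 1 - k)) % 2 = 1 := by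
    rw [Finset.sum_nat_mod]
    have : ∀ k ∈ Finset.range g, ((q ^ z') ^ k * (p ^ d') ^ (g - 1 - k)) % 2 = 1 := by
      intro k _
      have o1 : Odd ((q ^ z') ^ k * (p ^ d') ^ (g - 1 - k)) :=
        (((Nat.odd_iff.2 hq).pow).pow).mul (((Nat.odd_iff.2 hp).pow).pow)
      exact Nat.odd_iff.1 o1
    rw [Finset.sum_congr rfl this]
    simpa using hgodd
  have hdvd : (∑ k ∈ Finset.range g, (q ^ z') ^ k * (p ^ d') ^ (g - 1 - k)) ∣ 2 ^ c :=
    ⟨_, hfac.symm⟩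
  obtain ⟨m, _, hm⟩ := (Nat.dvd_prime_pow Nat.prime_two).1 hdvd
  have hm0 : m = 0 := by
    by_contra hne
    rw [hm] at hodd
    have : 2 ^ m % 2 = 0 := by
      obtain ⟨l, rfl⟩ := Nat.exists_eq_succ_of_ne_zero hne
      rw [pow_succ]
      omega
    omega
  rw [hm0, pow_zero] at hm
  have hbig : (q ^ z') ^ 0 * (p ^ d') ^ (g - 1 - 0) ≤
      ∑ k ∈ Finset.range g, (q ^ z') ^ k * (p ^ d') ^ (g - 1 - k) :=
    Finset.single_le_sum (f := fun k => (q ^ z') ^ k * (p ^ d') ^ (g - 1 - k))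
      (fun k _ => Nat.zero_le _) (Finset.mem_range.2 (by omega))
  rw [hm, pow_zero, one_mul, Nat.sub_zero] at hbig
  have h2 : 2 ≤ p ^ d' := by
    calc 2 ≤ p := hp2
      _ = p ^ 1 := (pow_one p).symm
      _ ≤ p ^ d' := Nat.pow_le_pow_right (by omega) hd'1
  have h3 : 2 ^ 1 ≤ (p ^ d') ^ (g - 1) := by
    calc 2 ^ 1 ≤ (p ^ d') ^ 1 := by rw [pow_one, pow_one]; exact h2
      _ ≤ (p ^ d') ^ (g - 1) := Nat.pow_le_pow_right (by omega) (by omega)
  omega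

/-- If `p^m ∣ 2^n - 1` and the odd prime `p` does not divide `n ≥ 1`, then
`p^m ∣ 2^(p-1) - 1`. -/
lemma wf_order {p m n : ℕ} (hp : p.Prime) (hpn : ¬ p ∣ n)
    (h : p ^ m ∣ 2 ^ n - 1) (hp2 : p % 2 = 1) : p ^ m ∣ 2 ^ (p - 1) - 1 := by
  rcases Nat.eq_zero_or_pos m with rfl | hm
  · simp
  have hcop : Nat.Coprime 2 (p ^ m) := by
    apply Nat.Coprime.pow_right
    rw [Nat.coprime_primes Nat.prime_two hp]
    rintro rfl
    omega
  have hmod : ∀ k : ℕ, p ^ m ∣ 2 ^ k - 1 ↔ (2 : ZMod (p ^ m)) ^ k = 1 := by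
    intro k
    have h1 : (1 : ℕ) ≤ 2 ^ k := Nat.one_le_pow _ _ (by norm_num)
    rw [← Nat.modEq_iff_dvd' h1]
    constructor
    · intro h2
      have := (ZMod.natCast_eq_natCast_iff _ _ _).2 h2
      push_cast at this
      exact this.symm
    · intro h2
      apply (ZMod.natCast_eq_natCast_iff _ _ _).1
      push_cast
      exact h2.symm
  rw [hmod] at h ⊢
  have h1 : orderOf (2 : ZMod (p ^ m)) ∣ n := orderOf_dvd_of_pow_eq_one h
  have h2 : orderOf (2 : ZMod (p ^ m)) ∣ p ^ (m - 1) * (p - 1) := by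
    apply orderOf_dvd_of_pow_eq_one
    have h3 := Nat.ModEq.pow_totient hcop
    rw [Nat.totient_prime_pow hp hm] at h3
    have := (ZMod.natCast_eq_natCast_iff _ _ _).2 h3
    push_cast at this
    exact this
  have h3 : Nat.Coprime (orderOf (2 : ZMod (p ^ m))) (p ^ (m - 1)) := by
    apply Nat.Coprime.pow_right
    rw [Nat.coprime_comm, hp.coprime_iff_not_dvd]
    exact fun hdv => hpn (hdv.trans h1)
  exact orderOf_dvd_iff_pow_eq_one.1 (h3.dvd_of_dvd_mul_left h2)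

end Pool.Agent.H12.WF
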