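import Mathlib

/-! Counting of exceptional triples (used for `MP_8ba198_nt`). -/

namespace Pool.Agent.H12.WF

/-- `2^n - 1` has at most `n` prime factors. -/
lemma wf_card_pf (n : ℕ) : (2 ^ n - 1).primeFactors.card ≤ n := by
  have h1 : 2 ^ (2 ^ n - 1).primeFactors.card ≤ ∏ p ∈ (2 ^ n - 1).primeFactors, p :=
    Finset.pow_card_le_prod _ _ _ fun p hp => (Nat.prime_of_mem_primeFactors hp).two_le
  rcases Nat.eq_zero_or_pos n with rfl | hn
  · simp
  have h2 : 0 < 2 ^ n - 1 := by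
    have : 2 ^ 1 ≤ 2 ^ n := Nat.pow_le_pow_right (by norm_num) hn
    omega
  have h3 : ∏ p ∈ (2 ^ n - 1).primeFactors, p ≤ 2 ^ n - 1 :=
    Nat.le_of_dvd h2 (Nat.prod_primeFactors_dvd _)
  exact (Nat.pow_le_pow_iff_right (by norm_num : 1 < 2)).1 (by omega)

/-- The triples `(2, p, 4^i + p^(2j))` with `p ∣ 2^n - 1` and bounded `n, i, j`. -/
def wf_fam (M K : ℕ) : Finset (ℕ × ℕ × ℕ) :=
  (Finset.range (M + 1)).biUnion fun n =>
    ((2 ^ n - 1).primeFactors ×ˢ (Finset.range (K + 1) ×ˢ Finset.range (K + 1))).image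
      fun x => (2, x.1, 4 ^ x.2.1 + x.1 ^ (2 * x.2.2))

/-- The same with `a, b` exchanged. -/
def wf_fam' (M K : ℕ) : Finset (ℕ × ℕ × ℕ) :=
  (Finset.range (M + 1)).biUnion fun n =>
    ((2 ^ n - 1).primeFactors ×ˢ (Finset.range (K + 1) ×ˢ Finset.range (K + 1))).image
      fun x => (x.1, 2, 4 ^ x.2.1 + x.1 ^ (2 * x.2.2))

lemma wf_one_card (M K n : ℕ) (hn : n ∈ Finset.range (M + 1)) (f : ℕ × ℕ × ℕ → ℕ × ℕ × ℕ) :
    (((2 ^ n - 1).primeFactors ×ˢ (Finset.range (K + 1) ×ˢ Finset.range (K + 1))).image f).card ≤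
      (M + 1) * (K + 1) ^ 2 := by
  refine Finset.card_image_le.trans ?_
  rw [Finset.card_product, Finset.card_product, Finset.card_range]
  have h1 := wf_card_pf n
  have h2 := Finset.mem_range.1 hn
  rw [← sq]
  exact Nat.mul_le_mul_right _ (by omega)

lemma wf_fam_card (M K : ℕ) : (wf_fam M K).card ≤ (M + 1) ^ 2 * (K + 1) ^ 2 := by
  unfold wf_fam
  have h := Finset.card_biUnion_le_card_mul (Finset.range (M + 1))
    (fun n => ((2 ^ n - 1).primeFactors ×ˢ
      (Finset.range (K + 1) ×ˢ Finset.range (K + 1))).image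
      fun x => (2, x.1, 4 ^ x.2.1 + x.1 ^ (2 * x.2.2))) ((M + 1) * (K + 1) ^ 2)
    (fun n hn => wf_one_card M K n hn _)
  rw [Finset.card_range] at h
  calc _ ≤ (M + 1) * ((M + 1) * (K + 1) ^ 2) := h
    _ = (M + 1) ^ 2 * (K + 1) ^ 2 := by ring

lemma wf_fam'_card (M K : ℕ) : (wf_fam' M K).card ≤ (M + 1) ^ 2 * (K + 1) ^ 2 := by
  unfold wf_fam'
  have h := Finset.card_biUnion_le_card_mul (Finset.range (M + 1))
    (fun n => ((2 ^ n - 1).primeFactors ×ˢ
      (Finset.range (K + 1) ×ˢ Finset.range (K + 1))).image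
      fun x => (x.1, 2, 4 ^ x.2.1 + x.1 ^ (2 * x.2.2))) ((M + 1) * (K + 1) ^ 2)
    (fun n hn => wf_one_card M K n hn _)
  rw [Finset.card_range] at h
  calc _ ≤ (M + 1) * ((M + 1) * (K + 1) ^ 2) := h
    _ = (M + 1) ^ 2 * (K + 1) ^ 2 := by ring

lemma wf_exp_le {b m X : ℕ} (hb : 3 ≤ b) (h : b ^ m ≤ X) : m ≤ ⌊Real.log X⌋₊ := by
  apply Nat.le_floor
  have h1 : (b : ℝ) ^ m ≤ X := by exact_mod_cast h
  have hb0 : (0 : ℝ) < b := by
    have : 0 < b := by omega
    exact_mod_cast this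
  have h2 : Real.log ((b : ℝ) ^ m) ≤ Real.log X := Real.log_le_log (by positivity) h1
  rw [Real.log_pow] at h2
  have h3 : (1 : ℝ) ≤ Real.log b := by
    rw [Real.le_log_iff_exp_le hb0]
    have h4 := Real.exp_one_lt_d9
    have h5 : (3 : ℝ) ≤ b := by exact_mod_cast hb
    linarith
  have h6 : (0 : ℝ) ≤ m := Nat.cast_nonneg m
  nlinarith

/-- If all but boundedly many members of `S` belong to the family, then `S` has at most
`(log X)^13` members up to `X`. -/
theorem wf_count (S : Set (ℕ × ℕ × ℕ)) (A : ℝ)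
    (hS : ∀ a b c : ℕ, (a, b, c) ∈ S → A < (max (max a b) c : ℕ) → ∃ p i j n : ℕ, p.Prime ∧
      3 ≤ p ∧ ((a = 2 ∧ b = p) ∨ (a = p ∧ b = 2)) ∧ c = 4 ^ i + p ^ (2 * j) ∧ 0 < n ∧
      (n : ℝ) ≤ 2 * (Real.log c) ^ 5 ∧ p ∣ 2 ^ n - 1) :
    ∃ X₀ : ℝ, ∀ X : ℕ, X₀ ≤ X →
      (({t ∈ S | t.1 ≤ X ∧ t.2.1 ≤ X ∧ t.2.2 ≤ X}.ncard : ℕ) : ℝ) ≤ (Real.log X) ^ 13 := by
  set N : ℕ := ⌈|A|⌉₊ + 1 with hN
  refine ⟨Real.exp (max 200 ((N : ℝ) ^ 3)), fun X hX => ?_⟩
  have hX0 : (0 : ℝ) < X := lt_of_lt_of_le (Real.exp_pos _) hX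
  set T := Real.log X with hT
  have hT1 : max 200 ((N : ℝ) ^ 3) ≤ T := by
    rw [hT, ← Real.log_exp (max 200 ((N : ℝ) ^ 3))]
    exact Real.log_le_log (Real.exp_pos _) hX
  have hT200 : 200 ≤ T := (le_max_left _ _).trans hT1
  have hTN : (N : ℝ) ^ 3 ≤ T := (le_max_right _ _).trans hT1
  set K := ⌊T⌋₊ with hK
  set M := ⌊2 * T ^ 5⌋₊ with hM
  set F : Finset (ℕ × ℕ × ℕ) := Finset.range N ×ˢ (Finset.range N ×ˢ Finset.range N) with hF
  have hsub : {t ∈ S | t.1 ≤ X ∧ t.2.1 ≤ X ∧ t.2.2 ≤ X} ⊆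
      ((F ∪ (wf_fam M K ∪ wf_fam' M K) : Finset (ℕ × ℕ × ℕ)) : Set (ℕ × ℕ × ℕ)) := by
    rintro ⟨a, b, c⟩ ⟨hmem, ha, hb, hc⟩
    simp only at ha hb hc
    rw [Finset.mem_coe, Finset.mem_union, Finset.mem_union]
    rcases le_or_gt ((max (max a b) c : ℕ) : ℝ) A with hA | hA
    · left
      have h1 : max (max a b) c < N := by
        rw [hN]
        have h2 : ((max (max a b) c : ℕ) : ℝ) ≤ (⌈|A|⌉₊ : ℝ) :=
          hA.trans ((le_abs_self A).trans (Nat.le_ceil _))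
        have h3 : max (max a b) c ≤ ⌈|A|⌉₊ := by exact_mod_cast h2
        omega
      rw [hF, Finset.mem_product, Finset.mem_product, Finset.mem_range, Finset.mem_range,
        Finset.mem_range]
      exact ⟨by simp only; omega, by simp only; omega, by simp only; omega⟩
    · right
      obtain ⟨p, i, j, n, hp, hp3, hab, hcf, hn0, hn, hdvd⟩ := hS a b c hmem hA
      have hc0 : 0 < c := by
        rw [hcf]; positivity
      have hcX : Real.log c ≤ T := Real.log_le_log (by exact_mod_cast hc0) (by exact_mod_cast hc)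
      have hlc : 0 ≤ Real.log c := Real.log_natCast_nonneg c
      have hnM : n ≤ M := by
        apply Nat.le_floor
        have : (Real.log c) ^ 5 ≤ T ^ 5 := pow_le_pow_left₀ hlc hcX 5
        linarith
      have hiK : i ≤ K := by
        apply wf_exp_le (b := 4) (by norm_num)
        have : 4 ^ i ≤ c := by rw [hcf]; exact Nat.le_add_right _ _
        exact this.trans hc
      have hjK : j ≤ K := by
        have h2 : 2 * j ≤ K := by
          apply wf_exp_le hp3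
          have : p ^ (2 * j) ≤ c := by rw [hcf]; exact Nat.le_add_left _ _
          exact this.trans hc
        omega
      have hpf : p ∈ (2 ^ n - 1).primeFactors := by
        rw [Nat.mem_primeFactors]
        refine ⟨hp, hdvd, ?_⟩
        have : 2 ^ 1 ≤ 2 ^ n := Nat.pow_le_pow_right (by norm_num) hn0
        omega
      rcases hab with ⟨rfl, rfl⟩ | ⟨rfl, rfl⟩
      · left
        unfold wf_fam
        rw [Finset.mem_biUnion]
        refine ⟨n, Finset.mem_range.2 (by omega), ?_⟩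
        rw [Finset.mem_image]
        refine ⟨(b, i, j), ?_, by rw [hcf]⟩
        rw [Finset.mem_product, Finset.mem_product, Finset.mem_range, Finset.mem_range]
        exact ⟨hpf, by simp only; omega, by simp only; omega⟩
      · right
        unfold wf_fam'
        rw [Finset.mem_biUnion]
        refine ⟨n, Finset.mem_range.2 (by omega), ?_⟩
        rw [Finset.mem_image]
        refine ⟨(a, i, j), ?_, by rw [hcf]⟩
        rw [Finset.mem_product, Finset.mem_product, Finset.mem_range, Finset.mem_range]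
        exact ⟨hpf, by simp only; omega, by simp only; omega⟩
  have hcard : {t ∈ S | t.1 ≤ X ∧ t.2.1 ≤ X ∧ t.2.2 ≤ X}.ncard ≤
      N ^ 3 + ((M + 1) ^ 2 * (K + 1) ^ 2 + (M + 1) ^ 2 * (K + 1) ^ 2) := by
    refine (Set.ncard_le_ncard hsub (Finset.finite_toSet _)).trans ?_
    rw [Set.ncard_coe_finset]
    refine (Finset.card_union_le _ _).trans ?_
    refine Nat.add_le_add ?_ ?_
    · rw [hF, Finset.card_product, Finset.card_product, Finset.card_range]
      exact le_of_eq (by ring)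
    · exact (Finset.card_union_le _ _).trans
        (Nat.add_le_add (wf_fam_card _ _) (wf_fam'_card _ _))
  have hM1 : ((M : ℝ) + 1) ≤ 3 * T ^ 5 := by
    have h1 : (M : ℝ) ≤ 2 * T ^ 5 := Nat.floor_le (by positivity)
    have h2 : (1 : ℝ) ≤ T ^ 5 := one_le_pow₀ (by linarith)
    linarith
  have hK1 : ((K : ℝ) + 1) ≤ 2 * T := by
    have h1 : (K : ℝ) ≤ T := Nat.floor_le (by linarith)
    linarith
  calc (({t ∈ S | t.1 ≤ X ∧ t.2.1 ≤ X ∧ t.2.2 ≤ X}.ncard : ℕ) : ℝ)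
      ≤ ((N ^ 3 + ((M + 1) ^ 2 * (K + 1) ^ 2 + (M + 1) ^ 2 * (K + 1) ^ 2) : ℕ) : ℝ) := by
        exact_mod_cast hcard
    _ = (N : ℝ) ^ 3 + 2 * (((M : ℝ) + 1) ^ 2 * ((K : ℝ) + 1) ^ 2) := by
        push_cast; ring
    _ ≤ T + 2 * ((3 * T ^ 5) ^ 2 * (2 * T) ^ 2) := by gcongr
    _ = T + 72 * T ^ 12 := by ring
    _ ≤ T ^ 13 := by
        have h1 : T ≤ T ^ 12 := le_self_pow₀ (by linarith) (by norm_num)
        have h2 : T ^ 13 = T * T ^ 12 := by ring
        have h3 : 200 * T ^ 12 ≤ T * T ^ 12 :=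
          mul_le_mul_of_nonneg_right hT200 (by positivity)
        have h4 : 0 ≤ T ^ 12 := by positivity
        linarith

end Pool.Agent.H12.WF
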