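import Pool.Agent.H12.WF.Main

/-! Exceptional triples of `MP_8ba198_nt`: the order of `2`. -/

namespace Pool.Agent.H12.WF

open Pool.Agent.H91.CB

/-- The structure of the exceptional triples. -/
theorem wf_final : ∃ A : ℝ, ∀ a b c : ℕ, a.Prime → b.Prime → c.Prime → a ≠ b → a ≠ c → b ≠ c →
    A < (max (max a b) c : ℕ) → 1 < numSol a b c →
      ∃ p i j : ℕ, p.Prime ∧ ((a = 2 ∧ b = p) ∨ (a = p ∧ b = 2)) ∧ 0 < i ∧ 0 < j ∧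
        c = 4 ^ i + p ^ (2 * j) ∧ (p % 24 = 1 ∨ p % 24 = 17) ∧
        (∃ n : ℕ, 0 < n ∧ (n : ℝ) ≤ 2 * (Real.log c) ^ 5 ∧ p ∣ 2 ^ n - 1) ∧
        (p % 24 = 1 → p ^ (2 * j) ∣ 2 ^ (p - 1) - 1 ∧
          ∃ n : ℕ, 0 < n ∧ (n : ℝ) ≤ (Real.log p) ^ 4 ∧ p ^ (2 * j) ∣ 2 ^ n - 1) := by
  obtain ⟨T1, hT1⟩ := wf_small
  obtain ⟨T2, hT2⟩ := general
  obtain ⟨T3, hT3⟩ := wf_wief
  refine ⟨Real.exp (max (max T1 T3) T2), fun a b c ha hb hc hab hac hbc hA hlt => ?_⟩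
  obtain ⟨p, hp, hsh, i, j, x, y, z, hi, hj, hform, h24, hl, hx, hy, hz, h, hpar⟩ :=
    hT2 (max (max T1 T3) T2) (le_max_right _ _) a b c ha hb hc hab hac hbc hA hlt
  have hl1 : T1 ≤ Real.log c := le_trans (le_trans (le_max_left _ _) (le_max_left _ _)) hl
  have hl3 : T3 ≤ Real.log c := le_trans (le_trans (le_max_right _ _) (le_max_left _ _)) hl
  obtain ⟨n, hn0, hn, _, hdv, _⟩ := hT1 p c i j x y z hp hc h24 hi hj hform hy hz h hl1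
  refine ⟨p, i, j, hp, hsh, hi, hj, hform, h24, ⟨n, hn0, hn, hdv⟩, fun h1 => ?_⟩
  obtain ⟨hx2, hz2⟩ := hpar h1
  exact hT3 p c i j x y z hp hc h1 hi hj hform hx2 hx hy hz2 h hl3

end Pool.Agent.H12.WF
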