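import Pool.Agent.H91.CB.MainC
import Pool.Agent.H91.CB.Gen
import Pool.Agent.H12.WF.Ari

/-! The exceptional primes of `MP_8ba198_nt` have a small order of `2`; those `≡ 1 (mod 24)` are
Wieferich primes. -/

namespace Pool.Agent.H12.WF

open Pool.Agent.H91.CA Pool.Agent.H91.CB Filter

/-- Elementary size bound: `|2 i z - c| ≤ 2 z log q`. -/
lemma wf_size {p q i j c d z : ℕ} (hp : 0 < p) (hq : q = 4 ^ i + p ^ (2 * j))
    (h : 2 ^ c + p ^ d = q ^ z) :
    (((2 * i * z - c) + (c - 2 * i * z) : ℕ) : ℝ) ≤ 2 * (z * Real.log q) := by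
  have hq0 : 0 < q := by rw [hq]; positivity
  have hl2 : (1 / 2 : ℝ) ≤ Real.log 2 := by
    have := Real.log_two_gt_d9
    linarith
  have hqz : Real.log ((q : ℝ) ^ z) = z * Real.log q := Real.log_pow _ _
  have h1 : ((2 * i * z : ℕ) : ℝ) * Real.log 2 ≤ z * Real.log q := by
    rw [← hqz, ← Real.log_pow]
    apply Real.log_le_log (by positivity)
    have : 2 ^ (2 * i * z) ≤ q ^ z := by
      rw [pow_mul, pow_mul]
      apply Nat.pow_le_pow_left
      rw [hq]
      norm_num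
    exact_mod_cast this
  have h2 : (c : ℝ) * Real.log 2 ≤ z * Real.log q := by
    rw [← hqz, ← Real.log_pow]
    apply Real.log_le_log (by positivity)
    have : 2 ^ c ≤ q ^ z := by
      rw [← h]
      exact Nat.le_add_right _ _
    exact_mod_cast this
  rcases le_total (2 * i * z) c with hle | hle
  · have e : ((2 * i * z - c) + (c - 2 * i * z) : ℕ) ≤ c := by omega
    have e' : (((2 * i * z - c) + (c - 2 * i * z) : ℕ) : ℝ) ≤ c := by exact_mod_cast e
    have hc0 : (0 : ℝ) ≤ c := Nat.cast_nonneg c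
    nlinarith
  · have e : ((2 * i * z - c) + (c - 2 * i * z) : ℕ) ≤ 2 * i * z := by omega
    have e' : (((2 * i * z - c) + (c - 2 * i * z) : ℕ) : ℝ) ≤ ((2 * i * z : ℕ) : ℝ) := by
      exact_mod_cast e
    have hc0 : (0 : ℝ) ≤ ((2 * i * z : ℕ) : ℝ) := Nat.cast_nonneg _
    nlinarith

/-- All exceptional primes: the order of `2` is small compared with `q`. -/
theorem wf_small : ∃ T : ℝ, ∀ p q i j c d z : ℕ, p.Prime → q.Prime →
    (p % 24 = 1 ∨ p % 24 = 17) → 1 ≤ i → 1 ≤ j → q = 4 ^ i + p ^ (2 * j) → d % 2 = 1 → 1 ≤ z →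
    2 ^ c + p ^ d = q ^ z → T ≤ Real.log q →
    ∃ n : ℕ, 0 < n ∧ (n : ℝ) ≤ 2 * (Real.log q) ^ 5 ∧ (n : ℝ) ≤ 2 * (z * Real.log q) ∧
      p ∣ 2 ^ n - 1 ∧ (2 * j ≤ d → p ^ (2 * j) ∣ 2 ^ n - 1) := by
  obtain ⟨T, hT⟩ := asym
  refine ⟨T, fun p q i j c d z hp hq h24 hi hj hqe hd hz h hlarge => ?_⟩
  obtain ⟨hlog, h200, hexp, hfin, hzb⟩ := hT _ hlarge
  have hp17 : 17 ≤ p := by
    have := hp.two_le
    omega
  have hp2 : 2 ≤ p := hp.two_le
  have hpq : p < q := by
    have h1 : p ^ 1 ≤ p ^ (2 * j) := Nat.pow_le_pow_right (by omega) (by omega)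
    have h2 : 0 < 4 ^ i := by positivity
    rw [pow_one] at h1
    omega
  have hcop : q.Coprime p := (Nat.coprime_primes hq hp).2 (by omega)
  have hq4 : q % 4 = 1 := by
    have h1 : p ^ (2 * j) % 4 = 1 := by
      rw [Nat.pow_mod, show p % 4 = 1 by omega]; simp
    have h2 : 4 ^ i % 4 = 0 := by
      obtain ⟨k, rfl⟩ : ∃ k, i = k + 1 := ⟨i - 1, by omega⟩
      rw [pow_succ]; omega
    omega
  have hzd : z.Coprime d := wf_cop (by omega) (by omega) hp2 hd h
  have hzt : (z : ℝ) ≤ (Real.log q) ^ 4 :=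
    hzb z (by exact_mod_cast hz) (z_le_core hp2 hpq hcop hq4 (by omega) hd hzd hz h h200)
  have hsz := wf_size (by omega) hqe h
  have hne := wf_ne hp (by omega) hi hj hqe hd hz h
  have hdv : ∀ m : ℕ, m ≤ d → m ≤ 2 * j →
      p ^ m ∣ 2 ^ ((2 * i * z - c) + (c - 2 * i * z)) - 1 := by
    intro m h1 h2
    obtain ⟨k1, k2⟩ := wf_dvd hp (by omega) hqe h h1 h2
    rcases le_total (2 * i * z) c with hle | hle
    · rw [Nat.sub_eq_zero_of_le hle, zero_add]
      exact k2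
    · rw [Nat.sub_eq_zero_of_le hle, add_zero]
      exact k1
  refine ⟨(2 * i * z - c) + (c - 2 * i * z), by omega, ?_, hsz, ?_, fun h1 => hdv _ h1 le_rfl⟩
  · have h1 : z * Real.log q ≤ (Real.log q) ^ 5 := by
      have h2 : (z : ℝ) * Real.log q ≤ (Real.log q) ^ 4 * Real.log q :=
        mul_le_mul_of_nonneg_right hzt (by linarith)
      calc _ ≤ (Real.log q) ^ 4 * Real.log q := h2
        _ = (Real.log q) ^ 5 := by ring
    linarith
  · have := hdv 1 (by omega) (by omega)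
    rwa [pow_one] at this

lemma wf_asym : ∃ T : ℝ, ∀ t : ℝ, T ≤ t → 36 * 10 ^ 70 * (Real.log t) ^ 16 < t ∧
    1 ≤ Real.log t ∧ ∀ s : ℝ, 6 * 10 ^ 26 * (Real.log t) ^ 6 ≤ s → s ^ 4 < Real.exp s := by
  rw [← Filter.eventually_atTop]
  have hlog := Real.tendsto_log_atTop
  obtain ⟨W, hW⟩ := Filter.eventually_atTop.mp (Asy_exp 1 4 1 one_pos)
  filter_upwards [hlog.eventually (Asy_exp (36 * 10 ^ 70) 16 1 one_pos),
    hlog.eventually_ge_atTop (max 1 W), eventually_ge_atTop 1] with t h1 h2 h3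
  have h2' : 1 ≤ Real.log t := (le_max_left _ _).trans h2
  have h2'' : W ≤ Real.log t := (le_max_right _ _).trans h2
  refine ⟨?_, h2', fun s hs => ?_⟩
  · rw [one_mul, Real.exp_log (by linarith)] at h1
    exact h1
  · have h4 : Real.log t ≤ (Real.log t) ^ 6 := le_self_pow₀ h2' (by norm_num)
    have h5 : 0 ≤ (Real.log t) ^ 6 := by positivity
    have h6 : W ≤ s := by linarith
    have := hW s h6
    rwa [one_mul, one_mul] at this

/-- Exceptional primes `≡ 1 (mod 24)` are Wieferich primes. -/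
theorem wf_wief : ∃ T : ℝ, ∀ p q i j c d z : ℕ, p.Prime → q.Prime → p % 24 = 1 → 1 ≤ i → 1 ≤ j →
    q = 4 ^ i + p ^ (2 * j) → c % 2 = 0 → 0 < c → d % 2 = 1 → z % 2 = 1 →
    2 ^ c + p ^ d = q ^ z → T ≤ Real.log q →
    p ^ (2 * j) ∣ 2 ^ (p - 1) - 1 ∧
      ∃ n : ℕ, 0 < n ∧ (n : ℝ) ≤ (Real.log p) ^ 4 ∧ p ^ (2 * j) ∣ 2 ^ n - 1 := by
  obtain ⟨T1, hT1⟩ := asym
  obtain ⟨T2, hT2⟩ := core
  obtain ⟨T3, hT3⟩ := coreC
  obtain ⟨T4, hT4⟩ := wf_small
  obtain ⟨T5, hT5⟩ := wf_asym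
  refine ⟨max (max T1 T2) (max T3 (max T4 T5)),
    fun p q i j c d z hp hq h24 hi hj hqe hc hc0 hd hz h hlarge => ?_⟩
  have a1 : T1 ≤ Real.log q := le_trans (le_trans (le_max_left _ _) (le_max_left _ _)) hlarge
  have a2 : T2 ≤ Real.log q := le_trans (le_trans (le_max_right _ _) (le_max_left _ _)) hlarge
  have a3 : T3 ≤ Real.log q := le_trans (le_trans (le_max_left _ _) (le_max_right _ _)) hlarge
  have a4 : T4 ≤ Real.log q := le_trans (le_trans (le_trans (le_max_left _ _) (le_max_right _ _))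
    (le_max_right _ _)) hlarge
  have a5 : T5 ≤ Real.log q := le_trans (le_trans (le_trans (le_max_right _ _) (le_max_right _ _))
    (le_max_right _ _)) hlarge
  obtain ⟨hlog, h200, hexp, hfin, hzb⟩ := hT1 _ a1
  have hPw := hT2 p q i j c d z hp hq h24 hi hj hqe hc hc0 hd hz h a2
  have hLB := hT3 p q i j c d z hp hq h24 hi hj hqe hc hc0 hd hz h a3
  obtain ⟨n, hn0, _, hnz, _, hnd⟩ :=
    hT4 p q i j c d z hp hq (Or.inl h24) hi hj hqe hd (by omega) h a4
  obtain ⟨hbig, hl1, hexps⟩ := hT5 _ a5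
  set t := Real.log q with ht
  have hll : (5 : ℝ) ≤ Real.log t := le_trans (by norm_num) hlog
  have ht0 : (0 : ℝ) < t := by linarith
  have hp25 : 25 ≤ p := by
    rcases Nat.lt_or_ge p 25 with hlt | hge
    · have : p = 1 := by omega
      exact absurd (this ▸ hp) (by norm_num)
    · exact hge
  have hp2 : 2 ≤ p := hp.two_le
  have hpq : p < q := by
    have h1 : p ^ 1 ≤ p ^ (2 * j) := Nat.pow_le_pow_right (by omega) (by omega)
    have h2 : 0 < 4 ^ i := by positivity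
    rw [pow_one] at h1
    omega
  have hcop : q.Coprime p := (Nat.coprime_primes hq hp).2 (by omega)
  have hq4 : q % 4 = 1 := by
    have h1 : p ^ (2 * j) % 4 = 1 := by
      rw [Nat.pow_mod, show p % 4 = 1 by omega]; simp
    have h2 : 4 ^ i % 4 = 0 := by
      obtain ⟨k, rfl⟩ : ∃ k, i = k + 1 := ⟨i - 1, by omega⟩
      rw [pow_succ]; omega
    omega
  have hzd : z.Coprime d := wf_cop (by omega) (by omega) hp2 hd h
  have hz1 : 1 ≤ z := by omega
  have hzt : (z : ℝ) ≤ t ^ 4 :=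
    hzb z (by exact_mod_cast hz1) (z_le_core hp2 hpq hcop hq4 (by omega) hd hzd hz1 h h200)
  have hlt : Real.log t ≤ t := by
    have := Real.log_le_sub_one_of_pos ht0
    linarith
  have hp0 : (0 : ℝ) < (p : ℝ) := by exact_mod_cast (by omega : 0 < p)
  -- data of the second case
  have hbeta : 2 ^ c < p ∧ 2 * j * z + 1 ≤ d := by
    rcases tri hp (by omega) hi hj hqe hd hz h with ⟨_, hdiv, hic⟩ | ⟨hdiv, hdl⟩
    · exfalso
      have h4p : 4 ^ i < p := by
        have := Nat.le_of_dvd (by omega) hdiv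
        omega
      have h4 : (4 : ℝ) ^ i < p := by exact_mod_cast h4p
      have hL0 : (0 : ℝ) < Real.log t := by linarith
      have h5 : (p : ℝ) ^ (2 * j) < p * (Real.log t) ^ 3 :=
        hPw.trans (mul_lt_mul_of_pos_right h4 (by positivity))
      have h6 : (p : ℝ) ^ 2 ≤ (p : ℝ) ^ (2 * j) := pow_le_pow_right₀
        (by exact_mod_cast (by omega : 1 ≤ p)) (by omega)
      have h7 : (p : ℝ) < (Real.log t) ^ 3 := by
        have : (p : ℝ) * p < p * (Real.log t) ^ 3 := by nlinarith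
        exact lt_of_mul_lt_mul_left this hp0.le
      have h8 : (q : ℝ) ≤ 2 * t ^ 6 := by
        rw [hqe]
        push_cast
        have h9 : (Real.log t) ^ 3 ≤ t ^ 3 := pow_le_pow_left₀ (by linarith) hlt 3
        have h10 : (p : ℝ) * (Real.log t) ^ 3 ≤ t ^ 3 * t ^ 3 := by
          apply mul_le_mul (by linarith) h9 (by positivity) (by positivity)
        have h11 : t ^ 3 * t ^ 3 = t ^ 6 := by ring
        have h12 : t ^ 3 ≤ t ^ 6 := pow_le_pow_right₀ (by linarith) (by norm_num)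
        linarith
      have h2 : Real.exp (t / 2) ≤ q := by
        have hq0 : (0 : ℝ) < q := by exact_mod_cast hq.pos
        calc Real.exp (t / 2) ≤ Real.exp t := Real.exp_le_exp.2 (by linarith)
          _ = q := by rw [ht]; exact Real.exp_log hq0
      have h3 : 2 * t ^ 6 < 32 * t ^ 10 := by
        have h5 : t ^ 6 ≤ t ^ 10 := pow_le_pow_right₀ (by linarith) (by norm_num)
        have h6 : (0 : ℝ) < t ^ 10 := by positivity
        linarith
      linarith
    · refine ⟨?_, hdl⟩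
      have := Nat.le_of_dvd (by omega) hdiv
      omega
  obtain ⟨hcp, hdl⟩ := hbeta
  have hz' := beta_z (by omega) hpq hcop hz1 (by omega) h hcp h200 hll hzt
  set l := Real.log t with hl
  set s := Real.log p with hs
  have hs1 : (1 : ℝ) ≤ s := by
    have h1 : Real.exp 1 ≤ (p : ℝ) := by
      have h2 : (25 : ℝ) ≤ p := by exact_mod_cast hp25
      have := Real.exp_one_lt_d9
      linarith
    rw [hs, ← Real.log_exp 1]
    exact Real.log_le_log (Real.exp_pos 1) h1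
  have hl0 : 0 < l := by linarith
  -- `log p` is large
  have hsl : 6 * 10 ^ 26 * l ^ 6 ≤ s := by
    have h1 : 36 * 10 ^ 70 * l ^ 16 ≤ 10 ^ 18 * s ^ 2 * l ^ 4 := hbig.le.trans hLB
    have h2 : 36 * 10 ^ 52 * l ^ 12 ≤ s ^ 2 := by
      have h3 : (0 : ℝ) < 10 ^ 18 * l ^ 4 := by positivity
      refine le_of_mul_le_mul_left ?_ h3
      calc 10 ^ 18 * l ^ 4 * (36 * 10 ^ 52 * l ^ 12) = 36 * 10 ^ 70 * l ^ 16 := by ring
        _ ≤ 10 ^ 18 * s ^ 2 * l ^ 4 := h1
        _ = 10 ^ 18 * l ^ 4 * s ^ 2 := by ring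
    apply le_of_sq_le_sq _ (by linarith)
    calc (6 * 10 ^ 26 * l ^ 6) ^ 2 = 36 * 10 ^ 52 * l ^ 12 := by ring
      _ ≤ s ^ 2 := h2
  have hn4 : (n : ℝ) ≤ s ^ 4 := by
    have h1 : (z : ℝ) * t ≤ (3 * 10 ^ 8 * l ^ 2 * s) * (10 ^ 18 * s ^ 2 * l ^ 4) :=
      mul_le_mul hz' hLB ht0.le (by positivity)
    calc (n : ℝ) ≤ 2 * (z * t) := hnz
      _ ≤ 2 * ((3 * 10 ^ 8 * l ^ 2 * s) * (10 ^ 18 * s ^ 2 * l ^ 4)) := by linarith
      _ = (6 * 10 ^ 26 * l ^ 6) * s ^ 3 := by ring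
      _ ≤ s * s ^ 3 := mul_le_mul_of_nonneg_right hsl (by positivity)
      _ = s ^ 4 := by ring
  have hnp : n < p := by
    have h1 := hexps s hsl
    rw [hs, Real.exp_log hp0, ← hs] at h1
    have h2 : (n : ℝ) < p := lt_of_le_of_lt hn4 h1
    exact_mod_cast h2
  have h2j : 2 * j ≤ d := by
    have : 2 * j * 1 ≤ 2 * j * z := Nat.mul_le_mul_left _ hz1
    omega
  have hdv := hnd h2j
  refine ⟨wf_order hp (fun hdvd => ?_) hdv (by omega), n, hn0, hn4, hdv⟩
  have := Nat.le_of_dvd hn0 hdvd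
  omega

end Pool.Agent.H12.WF
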